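import Pool.Agent.Y328.CR.Fam

/-!
# Continuum many countable groups of infinite critical regularity which are not virtually smooth

Full (positive) answer to question Q1 of problem MP_4516ee_al, for `M = I` and for `M = S^1`, in a
strong form. The definitions `DiffI`, `DiffS` (and `ext01`, `IsLift`) are in
`Pool/Agent/W331/CR/Defs.lean`.
-/

set_option autoImplicit false

namespace Pool.Agent.Results.MP_4516ee_al.VirtuallyNotSmooth

open Set Function
open scoped ContDiff
open Pool.Agent.W331.CR (ext01 IsLift DiffI DiffS)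

/-- `Diff_+^{k+τ}([0,1])`: the orientation preserving `C^k` diffeomorphisms of `[0,1]` whose `k`-th
derivative is `τ`-Hölder continuous on `[0,1]` (no condition when `τ = 0`) -/
def HolderDiffI (k : ℕ) (τ : ℝ) : Set (Icc (0:ℝ) 1 ≃o Icc (0:ℝ) 1) :=
  {φ | φ ∈ DiffI k ∧ (τ = 0 ∨ ∃ C : ℝ, ∀ x ∈ Icc (0:ℝ) 1, ∀ y ∈ Icc (0:ℝ) 1,
    |iteratedDerivWithin k (ext01 φ) (Icc 0 1) x - iteratedDerivWithin k (ext01 φ) (Icc 0 1) y| ≤
      C * |x - y| ^ τ)}

/-- `Diff_+^{k+τ}(S^1)`: the orientation preserving `C^k` diffeomorphisms of the circle `ℝ/ℤ` having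
a lift to the line whose `k`-th derivative is `τ`-Hölder continuous (no condition when `τ = 0`) -/
def HolderDiffS (k : ℕ) (τ : ℝ) : Set (Equiv.Perm (AddCircle (1:ℝ))) :=
  {σ | ∃ F : ℝ ≃o ℝ, IsLift k F ∧ (∀ x : ℝ, σ (x : AddCircle (1:ℝ)) = ((F x : ℝ) : AddCircle (1:ℝ))) ∧
    (τ = 0 ∨ ∃ C : ℝ, ∀ x y : ℝ,
      |iteratedDeriv k (F : ℝ → ℝ) x - iteratedDeriv k (F : ℝ → ℝ) y| ≤ C * |x - y| ^ τ)}

/-- There are continuum many countable groups `G s` (`s` a real number) such that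

* each `G s` embeds into `Diff_+^r([0,1])` and into `Diff_+^r(S^1)` for every real number
  `r = k + τ` (`k ≥ 1` an integer and `0 ≤ τ < 1`);
* no subgroup `H` of finite index of `G s` embeds into `Diff_+^∞([0,1])` or into `Diff_+^∞(S^1)`,
  and in fact `H` has an element `z ≠ 1` killed by all homomorphisms from `H` to these two groups;
* for `s ≠ t` no subgroup of finite index of `G s` is isomorphic to one of `G t` (so the groups
  are pairwise not isomorphic, and not even commensurable);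
* a countable group contains copies of at most countably many of the groups `G s`. -/
theorem result : ∃ (G : ℝ → Type) (_ : ∀ s, Group (G s)),
    (∀ s, Countable (G s)) ∧
    (∀ s (k : ℕ) (τ : ℝ), 1 ≤ k → 0 ≤ τ → τ < 1 →
      (∃ φ : G s →* (Icc (0:ℝ) 1 ≃o Icc (0:ℝ) 1), Injective φ ∧ ∀ g, φ g ∈ HolderDiffI k τ) ∧
      (∃ φ : G s →* Equiv.Perm (AddCircle (1:ℝ)), Injective φ ∧ ∀ g, φ g ∈ HolderDiffS k τ)) ∧
    (∀ s (H : Subgroup (G s)), H.FiniteIndex → ∃ z : H, z ≠ 1 ∧
      (∀ φ : H →* DiffI ∞, φ z = 1) ∧ ∀ φ : H →* DiffS ∞, φ z = 1) ∧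
    (∀ s t, s ≠ t → ∀ (H : Subgroup (G s)) (H' : Subgroup (G t)), H.FiniteIndex →
      H'.FiniteIndex → IsEmpty (H ≃* H')) ∧
    (∀ (K : Type) [Group K] [Countable K], {s | ∃ ψ : G s →* K, Injective ψ}.Countable) :=
  Pool.Agent.Y328.CR.fam

end Pool.Agent.Results.MP_4516ee_al.VirtuallyNotSmooth
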